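import Pool.Agent.H7.KM.Counter

set_option autoImplicit false

namespace Pool.Agent.Results.MP_37b4fc_an.KMethod

open Pool.Agent.H7.KM
open scoped ENNReal

/-- The assertion of Q1 for all `p < ∞`, for the couples `A₁ ⊂ A₀` and `B₁ ⊂ B₀` (inclusions
`ιA`, `ιB`): every `U` with (H) (continuity of its restriction `U₁` is not even assumed) maps
`(A₀,A₁)_{θ,p;K}` continuously into `(B₀,B₁)_{θ,p;K}`. -/
def HoldsForFiniteP {A0 A1 B0 B1 : Type*} [NormedAddCommGroup A0] [NormedSpace ℂ A0]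
    [NormedAddCommGroup A1] [NormedSpace ℂ A1] [NormedAddCommGroup B0] [NormedSpace ℂ B0]
    [NormedAddCommGroup B1] [NormedSpace ℂ B1] (ιA : A1 →L[ℂ] A0) (ιB : B1 →L[ℂ] B0) : Prop :=
  ∀ (U : A0 → B0) (U1 : A1 → B1), HypH ιA ιB U U1 →
    ∀ θ : ℝ, 0 < θ → θ < 1 → ∀ p : ℝ≥0∞, 1 ≤ p → p < ∞ →
      ∀ a : A0, knorm ιA θ p a < ∞ → knorm ιB θ p (U a) < ∞ ∧ ContAt ιA ιB U θ p a

/-- The assertion of Q1 fails for `θ` and `p = ∞`, with `B_j = A_j`: `A₁ ⊂ A₀` are Banach spaces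
and there is `U` with (H), continuous from `A₁` to `B₁`, that is discontinuous at some point
of `(A₀,A₁)_{θ,∞;K}`. -/
def FailsAtInfinity {A0 A1 : Type*} [NormedAddCommGroup A0] [NormedSpace ℂ A0]
    [NormedAddCommGroup A1] [NormedSpace ℂ A1] (ι : A1 →L[ℂ] A0) (θ : ℝ) : Prop :=
  CompleteSpace A0 ∧ CompleteSpace A1 ∧ Function.Injective ι ∧
    ∃ (U : A0 → A0) (U1 : A1 → A1), HypH ι ι U U1 ∧ Continuous U1 ∧
      ∃ a : A0, knorm ι θ ∞ a < ∞ ∧ ¬ ContAt ι ι U θ ∞ a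

/-- Complete answer to Q1: for `p < ∞` continuity always holds; for `p = ∞` it fails for every
`θ ∈ (0,1)`, for suitable Banach spaces `A₁ ⊂ A₀`. -/
theorem result :
    (∀ (A0 A1 B0 B1 : Type*)
      [NormedAddCommGroup A0] [NormedSpace ℂ A0] [CompleteSpace A0]
      [NormedAddCommGroup A1] [NormedSpace ℂ A1] [CompleteSpace A1]
      [NormedAddCommGroup B0] [NormedSpace ℂ B0] [CompleteSpace B0]
      [NormedAddCommGroup B1] [NormedSpace ℂ B1] [CompleteSpace B1]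
      (ιA : A1 →L[ℂ] A0) (ιB : B1 →L[ℂ] B0), Function.Injective ιA → Function.Injective ιB →
      HoldsForFiniteP ιA ιB) ∧
    (∀ θ : ℝ, 0 < θ → θ < 1 →
      ∃ (A0 A1 : Type) (_ : NormedAddCommGroup A0) (_ : NormedSpace ℂ A0)
        (_ : NormedAddCommGroup A1) (_ : NormedSpace ℂ A1) (ι : A1 →L[ℂ] A0),
        FailsAtInfinity ι θ) := by
  refine ⟨?_, fun θ h0 h1 => ?_⟩
  · intro A0 A1 B0 B1 _ _ _ _ _ _ _ _ _ _ _ _ ιA ιB _ _ U U1 h θ h0 _ p hp1 hp a ha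
    exact pos_part h h0 hp1 hp.ne a ha
  · obtain ⟨ι, hι, hU⟩ := neg_part θ h0 h1
    exact ⟨L1, L1, inferInstance, inferInstance, inferInstance, inferInstance, ι,
      inferInstance, inferInstance, hι, hU⟩

end Pool.Agent.Results.MP_37b4fc_an.KMethod
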